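import Mathlib
import Pool.Agent.MP_36f34d_co.H94.Rot

/-!
Lower bound `n^(5/3)` for the number of tetrahedra similar to a given lattice tetrahedron.
-/

namespace Pool.Agent.Results.MP_36f34d_co.FiveThirds

/-- four points not in a plane -/
def IsTetra (S : Finset (EuclideanSpace ℝ (Fin 3))) : Prop :=
  S.card = 4 ∧ ¬ Coplanar ℝ (S : Set (EuclideanSpace ℝ (Fin 3)))

/-- `S` is the image of `T` under an isometry followed by a scaling -/
def Similar (T S : Finset (EuclideanSpace ℝ (Fin 3))) : Prop :=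
  ∃ (φ : EuclideanSpace ℝ (Fin 3) ≃ᵢ EuclideanSpace ℝ (Fin 3)) (l : ℝ), 0 < l ∧
    (S : Set (EuclideanSpace ℝ (Fin 3))) = (fun x => l • φ x) '' T

/-- `s(P,T)`: the number of subsets of `P` that are tetrahedra similar to `T` -/
noncomputable def s (P T : Finset (EuclideanSpace ℝ (Fin 3))) : ℕ :=
  {S : Finset (EuclideanSpace ℝ (Fin 3)) | S ⊆ P ∧ IsTetra S ∧ Similar T S}.ncard

open Pool.Agent.MP_36f34d_co.H94

theorem result (T : Finset (EuclideanSpace ℝ (Fin 3))) (hT : IsTetra T)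
    (hZ : ∀ v ∈ T, ∀ i, ∃ z : ℤ, v i = z) :
    ∃ c : ℝ, 0 < c ∧ ∃ n₀ : ℕ, ∀ n : ℕ, n₀ ≤ n →
      ∃ P : Finset (EuclideanSpace ℝ (Fin 3)), P.card = n ∧
        c * (n : ℝ) ^ ((5 : ℝ) / 3) ≤ s P T := by
  classical
  obtain ⟨B, hB⟩ : ∃ B : ℕ, ∀ v ∈ T, ∃ z : Fin 3 → ℤ, v = pt z ∧ ∀ i, |z i| ≤ B := by
    choose! z hz using hZ
    refine ⟨T.sup fun v => Finset.univ.sup fun i => (z v i).natAbs, fun v hv => ⟨z v, ?_, ?_⟩⟩
    · ext i
      simpa [pt] using hz v hv i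
    · intro i
      rw [Int.abs_eq_natAbs]
      exact_mod_cast (Finset.le_sup (f := fun i => (z v i).natAbs) (Finset.mem_univ i)).trans
        (Finset.le_sup (f := fun v => Finset.univ.sup fun i => (z v i).natAbs) hv)
  set D : ℕ := (24 * B + 2) ^ 3 with hD
  have hD0 : 0 < D := by positivity
  refine ⟨(256 * ((64 * D : ℕ) : ℝ) ^ ((5 : ℝ) / 3))⁻¹, by positivity, D, fun n hn => ?_⟩
  set K : ℕ := Nat.findGreatest (fun K => D * K ^ 6 ≤ n) n with hK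
  have hDn : 1 ≤ n := le_trans hD0 hn
  have hK1 : 1 ≤ K := Nat.le_findGreatest hDn (by simpa using hn)
  have hK2 : D * K ^ 6 ≤ n :=
    Nat.findGreatest_spec (P := fun K => D * K ^ 6 ≤ n) hDn (by simpa using hn)
  have hK3 : n ≤ 64 * D * K ^ 6 := by
    have h1 : n < D * (K + 1) ^ 6 := by
      by_cases h : K + 1 ≤ n
      · exact not_le.1 (Nat.findGreatest_is_greatest (P := fun K => D * K ^ 6 ≤ n)
          (Nat.lt_succ_self K) h)
      · calc n < K + 1 := not_le.1 h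
          _ ≤ (K + 1) ^ 6 := Nat.le_self_pow (by norm_num) _
          _ ≤ D * (K + 1) ^ 6 := Nat.le_mul_of_pos_left _ hD0
    have h2 : (K + 1) ^ 6 ≤ (2 * K) ^ 6 := by gcongr; omega
    calc n ≤ D * (K + 1) ^ 6 := h1.le
      _ ≤ D * (2 * K) ^ 6 := by gcongr
      _ = 64 * D * K ^ 6 := by ring
  obtain ⟨P, C, hP, hC, hS⟩ := grid T hT.1 hT.2 B hB K
  have hPn : P.card ≤ n := by
    refine hP.trans (le_trans ?_ hK2)
    have : (24 * B + 1) * K ^ 2 + 1 ≤ (24 * B + 2) * K ^ 2 := by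
      have : 1 ≤ K ^ 2 := Nat.one_le_pow _ _ hK1
      nlinarith
    calc _ ≤ ((24 * B + 2) * K ^ 2) ^ 3 := by gcongr
      _ = D * K ^ 6 := by rw [hD]; ring
  obtain ⟨P', hPP', hP'⟩ := Infinite.exists_superset_card_eq P n hPn
  refine ⟨P', hP', ?_⟩
  have h1 : C.card ≤ s P' T := by
    rw [s, ← Set.ncard_coe_finset]
    refine Set.ncard_le_ncard ?_ ?_
    · intro S hSC
      obtain ⟨h1, h2, h3⟩ := hS S hSC
      exact ⟨h1.trans hPP', h2, h3⟩
    · exact (P'.powerset.finite_toSet).subset fun S hS => Finset.mem_coe.2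
        (Finset.mem_powerset.2 hS.1)
  have h2 : (n : ℝ) ^ ((5 : ℝ) / 3) ≤ ((64 * D : ℕ) : ℝ) ^ ((5 : ℝ) / 3) * (K : ℝ) ^ 10 := by
    have : (n : ℝ) ≤ ((64 * D : ℕ) : ℝ) * (K : ℝ) ^ 6 := by exact_mod_cast hK3
    calc _ ≤ (((64 * D : ℕ) : ℝ) * (K : ℝ) ^ 6) ^ ((5 : ℝ) / 3) := by gcongr
      _ = _ := by
        rw [Real.mul_rpow (by positivity) (by positivity), ← Real.rpow_natCast (K : ℝ) 6,
          ← Real.rpow_mul (by positivity), ← Real.rpow_natCast (K : ℝ) 10]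
        norm_num
  have h3 : (K : ℝ) ^ 10 ≤ 256 * (s P' T : ℝ) := by
    exact_mod_cast hC.trans (Nat.mul_le_mul_left _ h1)
  have h4 : (0 : ℝ) < ((64 * D : ℕ) : ℝ) ^ ((5 : ℝ) / 3) := by positivity
  rw [inv_mul_le_iff₀ (by positivity)]
  calc _ ≤ _ := h2
    _ ≤ ((64 * D : ℕ) : ℝ) ^ ((5 : ℝ) / 3) * (256 * (s P' T : ℝ)) := by gcongr
    _ = _ := by ring

end Pool.Agent.Results.MP_36f34d_co.FiveThirds
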