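import Pool.Agent.MP_36f34d_co.H14.Geo

/-!
Similar tetrahedra in subsets of the integer box `[0,N]^3`: at most
`N^ε (n^(5/3) + n min(n,N))`.
-/

namespace Pool.Agent.Results.MP_36f34d_co.LatticeBound

/-- four points not in a plane -/
def IsTetra (S : Finset (EuclideanSpace ℝ (Fin 3))) : Prop :=
  S.card = 4 ∧ ¬ Coplanar ℝ (S : Set (EuclideanSpace ℝ (Fin 3)))

/-- `S` is the image of `T` under an isometry followed by a scaling -/
def Similar (T S : Finset (EuclideanSpace ℝ (Fin 3))) : Prop :=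
  ∃ (φ : EuclideanSpace ℝ (Fin 3) ≃ᵢ EuclideanSpace ℝ (Fin 3)) (l : ℝ), 0 < l ∧
    (S : Set (EuclideanSpace ℝ (Fin 3))) = (fun x => l • φ x) '' T

/-- `s(P,T)`: the number of subsets of `P` that are tetrahedra similar to `T` -/
noncomputable def s (P T : Finset (EuclideanSpace ℝ (Fin 3))) : ℕ :=
  {S : Finset (EuclideanSpace ℝ (Fin 3)) | S ⊆ P ∧ IsTetra S ∧ Similar T S}.ncard

open Pool.Agent.MP_36f34d_co.H14

theorem result (ε : ℝ) (hε : 0 < ε) :
    ∃ C : ℝ, ∀ N : ℕ, 1 ≤ N → ∀ P T : Finset (EuclideanSpace ℝ (Fin 3)), IsTetra T →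
      (∀ v ∈ P, ∀ i, ∃ z : ℤ, v i = z ∧ 0 ≤ z ∧ z ≤ N) →
      (s P T : ℝ) ≤ C * (N : ℝ) ^ ε *
        ((P.card : ℝ) ^ ((5 : ℝ) / 3) + P.card * min (P.card : ℝ) N) := by
  classical
  obtain ⟨C, hC, h⟩ := quads ε hε
  refine ⟨C, fun N hN P T hT hP => ?_⟩
  choose! z hz using hP
  have hpt : ∀ v ∈ P, pt (z v) = v := fun v hv => by
    ext i
    exact (hz v hv i).1.symm
  have hcard : (P.image z).card = P.card := Finset.card_image_of_injOn fun v hv w hw e => by
    rw [← hpt v hv, ← hpt w hw, e]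
  set τ : Fin 4 → EuclideanSpace ℝ (Fin 3) := fun i => ((T.equivFinOfCardEq hT.1).symm i).1
    with hτ
  have hτ1 : Set.range τ = T := by
    ext x
    refine ⟨?_, fun hx => ⟨T.equivFinOfCardEq hT.1 ⟨x, hx⟩, by simp [hτ]⟩⟩
    rintro ⟨i, rfl⟩
    exact ((T.equivFinOfCardEq hT.1).symm i).2
  have hτ2 : dist (τ 0) (τ 1) ≠ 0 := by
    rw [dist_ne_zero]
    intro e
    have := (T.equivFinOfCardEq hT.1).symm.injective (Subtype.ext e)
    simp at this
  set A := {S : Finset (EuclideanSpace ℝ (Fin 3)) | S ⊆ P ∧ IsTetra S ∧ Similar T S} with hA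
  have hfin : A.Finite :=
    (P.powerset.finite_toSet).subset fun S hS => Finset.mem_powerset.2 hS.1
  have hq : ∀ S ∈ A, ∃ q : Fin 4 → V, (∀ i, q i ∈ P.image z) ∧
      (Set.range fun i => pt (q i)) = S ∧
      ∃ l : ℝ, 0 < l ∧ ∀ i j, (sd q i j : ℝ) = l ^ 2 * dist (τ i) (τ j) ^ 2 := by
    rintro S ⟨hSP, -, φ, l, hl, hS⟩
    rw [← hτ1, ← Set.range_comp] at hS
    have h1 : ∀ i, l • φ (τ i) ∈ P := fun i =>
      hSP (Finset.mem_coe.1 (hS ▸ Set.mem_range_self i))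
    refine ⟨fun i => z (l • φ (τ i)), fun i => Finset.mem_image_of_mem _ (h1 i), ?_, l, hl,
      fun i j => ?_⟩
    · rw [hS]
      congr 1
      funext i
      exact hpt _ (h1 i)
    · rw [sd, ← dist_pt, hpt _ (h1 i), hpt _ (h1 j), dist_smul₀, φ.dist_eq, mul_pow,
        Real.norm_eq_abs, sq_abs]
  choose! q hq1 hq2 hq3 using hq
  rcases A.eq_empty_or_nonempty with h0 | ⟨S₀, hS₀⟩
  · rw [s, ← hA, h0, Set.ncard_empty, Nat.cast_zero]
    positivity
  have key := h N (P.image z) hN (by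
      intro a ha i
      obtain ⟨v, hv, rfl⟩ := Finset.mem_image.1 ha
      exact (hz v hv i).2) (q S₀) (hq1 S₀ hS₀)
    (det_ne _ (by rw [hq2 S₀ hS₀]; exact hS₀.2.1.2)) (hfin.toFinset.image q) (by
      intro r hr
      obtain ⟨S, hS, rfl⟩ := Finset.mem_image.1 hr
      rw [hfin.mem_toFinset] at hS
      obtain ⟨l, hl, e⟩ := hq3 S hS
      obtain ⟨l', -, e'⟩ := hq3 S₀ hS₀
      refine ⟨hq1 S hS, ?_, fun i j => ?_⟩
      · have : (sd (q S) 0 1 : ℝ) ≠ 0 := by
          rw [e]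
          positivity
        exact_mod_cast this
      · have : (sd (q S) i j : ℝ) * sd (q S₀) 0 1 = sd (q S₀) i j * sd (q S) 0 1 := by
          rw [e, e, e', e']
          ring
        exact_mod_cast this)
  rw [hcard, Finset.card_image_of_injOn] at key
  · rwa [s, ← hA, Set.ncard_eq_toFinset_card _ hfin]
  · intro S hS S' hS' e
    rw [Finset.mem_coe, hfin.mem_toFinset] at hS hS'
    rw [← Finset.coe_inj, ← hq2 S hS, ← hq2 S' hS', e]

end Pool.Agent.Results.MP_36f34d_co.LatticeBound
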