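import Pool.Agent.MP_36f34d_co.H52.All
import Pool.Agent.MP_36f34d_co.H52.Tet

/-!
Upper bound `n^(19/9)` for the number of triangles in space similar to a given one.
-/

namespace Pool.Agent.Results.MP_36f34d_co.Triangles

/-- three points not on a line -/
def IsTri (S : Finset (EuclideanSpace ℝ (Fin 3))) : Prop :=
  S.card = 3 ∧ ¬ Collinear ℝ (S : Set (EuclideanSpace ℝ (Fin 3)))

/-- `S` is the image of `T` under an isometry followed by a scaling -/
def Similar (T S : Finset (EuclideanSpace ℝ (Fin 3))) : Prop :=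
  ∃ (φ : EuclideanSpace ℝ (Fin 3) ≃ᵢ EuclideanSpace ℝ (Fin 3)) (l : ℝ), 0 < l ∧
    (S : Set (EuclideanSpace ℝ (Fin 3))) = (fun x => l • φ x) '' T

/-- the number of subsets of `P` that are triangles similar to `T` -/
noncomputable def s (P T : Finset (EuclideanSpace ℝ (Fin 3))) : ℕ :=
  {S : Finset (EuclideanSpace ℝ (Fin 3)) | S ⊆ P ∧ IsTri S ∧ Similar T S}.ncard

open Pool.Agent.MP_36f34d_co.H52 TetAux Finset Matrix

theorem cross_of_not_collinear {A B C : E3} (h : ¬ Collinear ℝ ({A, B, C} : Set E3)) :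
    crossProduct (B.ofLp - A.ofLp) (C.ofLp - A.ofLp) ≠ 0 := by
  intro h0
  apply h
  by_cases hAB : B = A
  · rw [hAB, Set.insert_eq_of_mem (Set.mem_insert _ _)]
    exact collinear_pair ℝ A C
  have hne : B.ofLp - A.ofLp ≠ 0 := sub_ne_zero.2 fun e => hAB (WithLp.ofLp_injective 2 e)
  have hp := dot_self_pos hne
  have h1 := cross_cross_eq_smul_sub_smul' (B.ofLp - A.ofLp) (B.ofLp - A.ofLp) (C.ofLp - A.ofLp)
  rw [h0, map_zero] at h1
  rw [collinear_iff_of_mem (p₀ := A) (Set.mem_insert _ _)]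
  refine ⟨B - A, ?_⟩
  rintro p (rfl | rfl | rfl)
  · exact ⟨0, by simp⟩
  · exact ⟨1, by simp⟩
  · refine ⟨((B.ofLp - A.ofLp) ⬝ᵥ (p.ofLp - A.ofLp)) / ((B.ofLp - A.ofLp) ⬝ᵥ (B.ofLp - A.ofLp)),
      ?_⟩
    ext i
    have := congrFun h1 i
    simp only [Pi.zero_apply, Pi.sub_apply, Pi.smul_apply, smul_eq_mul] at this
    simp only [vadd_eq_add, PiLp.add_apply, PiLp.smul_apply, PiLp.sub_apply, smul_eq_mul]
    field_simp
    linear_combination this

theorem tri_le (T : Finset E3) (h3 : #T = 3) (hT : ¬ Collinear ℝ (T : Set E3)) :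
    ∃ τ e : ℝ, 0 < e ∧ ∀ P : Finset E3,
      {S : Finset E3 | S ⊆ P ∧ ∃ (φ : E3 ≃ᵢ E3) (l : ℝ), 0 < l ∧
        (S : Set E3) = (fun x => l • φ x) '' T}.ncard ≤ #(tris (P.image WithLp.ofLp) τ e) := by
  classical
  obtain ⟨A, B, C, hAB, -, -, rfl⟩ := card_eq_three.1 h3
  have hT' : ¬ Collinear ℝ ({A, B, C} : Set E3) := by
    convert hT using 2
    simp only [coe_insert, coe_singleton]
  have hcr := cross_of_not_collinear hT'
  set w := B.ofLp - A.ofLp with hw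
  set u := C.ofLp - A.ofLp with hu
  have hw0 : 0 < w ⬝ᵥ w :=
    dot_self_pos (sub_ne_zero.2 fun e => hAB (WithLp.ofLp_injective 2 e).symm)
  have he : 0 < u ⬝ᵥ u / (w ⬝ᵥ w) - (u ⬝ᵥ w / (w ⬝ᵥ w)) ^ 2 := by
    have h1 := cross_dot_cross w u w u
    have h2 := dot_self_pos hcr
    rw [h1, dotProduct_comm w u] at h2
    have : u ⬝ᵥ u / (w ⬝ᵥ w) - (u ⬝ᵥ w / (w ⬝ᵥ w)) ^ 2 =
        (w ⬝ᵥ w * u ⬝ᵥ u - u ⬝ᵥ w * u ⬝ᵥ w) / (w ⬝ᵥ w) ^ 2 := by
      field_simp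
    rw [this]
    positivity
  refine ⟨u ⬝ᵥ w / (w ⬝ᵥ w), _, he, fun P => ?_⟩
  set τ := u ⬝ᵥ w / (w ⬝ᵥ w) with hτ
  set e := u ⬝ᵥ u / (w ⬝ᵥ w) - τ ^ 2 with he'
  set P' := P.image WithLp.ofLp with hP'
  let g : V3 × V3 × V3 → Finset E3 := fun x =>
    {WithLp.toLp 2 x.1, WithLp.toLp 2 x.2.1, WithLp.toLp 2 x.2.2}
  refine le_trans (Set.ncard_le_ncard (t := ↑((tris P' τ e).image g)) ?_) ?_
  · rintro S ⟨hS, φ, l, hl, hS'⟩
    have mem : ∀ X ∈ ({A, B, C} : Finset E3), (l • φ X).ofLp ∈ P' := fun X hX =>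
      mem_image_of_mem _ (hS (by
        rw [← mem_coe, hS']
        exact ⟨X, hX, rfl⟩))
    have e0 := sim_dot φ l A B B
    refine mem_coe.2 (mem_image.2 ⟨((l • φ A).ofLp, (l • φ B).ofLp, (l • φ C).ofLp), ?_, ?_⟩)
    · refine mem_filter.2 ⟨mem_product.2 ⟨mem A (by simp),
        mem_product.2 ⟨mem B (by simp), mem C (by simp)⟩⟩, ?_, ?_, ?_⟩
      · intro h
        have h' : (l • φ A).ofLp = (l • φ B).ofLp := h
        rw [h', sub_self, zero_dotProduct] at e0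
        have : 0 < l ^ 2 * (w ⬝ᵥ w) := by positivity
        exact this.ne e0
      · dsimp only; rw [sim_dot, sim_dot, ← hw, ← hu, hτ]; field_simp
      · dsimp only; rw [sim_dot, sim_dot, ← hw, ← hu, he']; field_simp; ring
    · apply coe_injective
      rw [hS']
      simp [g, Set.image_insert_eq]
  · rw [Set.ncard_coe_finset]
    exact card_image_le

theorem result : ∃ C : ℝ, ∀ P T : Finset (EuclideanSpace ℝ (Fin 3)), IsTri T →
    (s P T : ℝ) ≤ C * (P.card : ℝ) ^ ((19 : ℝ) / 9) := by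
  classical
  obtain ⟨C, hC⟩ := TRI
  refine ⟨C * 2 ^ 19, fun P T hT => ?_⟩
  rcases P.eq_empty_or_nonempty with rfl | hP
  · have : s ∅ T = 0 := by
      rw [s, Set.ncard_eq_zero (Set.Finite.subset (Set.finite_singleton ∅) fun S hS =>
        Finset.subset_empty.1 hS.1), Set.eq_empty_iff_forall_notMem]
      intro S hS
      have h4 := hS.2.1.1
      rw [Finset.subset_empty.1 hS.1] at h4
      simp at h4
    rw [this, Nat.cast_zero]
    positivity
  obtain ⟨τ, e, he, h⟩ := tri_le T hT.1 hT.2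
  have hn : (1 : ℝ) ≤ P.card := by exact_mod_cast hP.card_pos
  set x : ℝ := (P.card : ℝ) ^ ((1 : ℝ) / 9) with hx
  have hx1 : 1 ≤ x := Real.one_le_rpow hn (by norm_num)
  have hx9 : x ^ 9 = P.card := by
    rw [hx, ← Real.rpow_natCast, ← Real.rpow_mul (by linarith)]
    norm_num
  have hx19 : x ^ 19 = (P.card : ℝ) ^ ((19 : ℝ) / 9) := by
    rw [hx, ← Real.rpow_natCast, ← Real.rpow_mul (by linarith)]
    norm_num
  have hq1 : 1 ≤ ⌈x⌉₊ := Nat.one_le_iff_ne_zero.2 (Nat.ceil_pos.2 (by linarith)).ne'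
  have hq2 : (⌈x⌉₊ : ℝ) ≤ 2 * x := by linarith [Nat.ceil_lt_add_one (show 0 ≤ x by linarith)]
  have hq3 : (P.image WithLp.ofLp).card ≤ ⌈x⌉₊ ^ 9 := by
    refine Finset.card_image_le.trans ?_
    have : (P.card : ℝ) ≤ (⌈x⌉₊ : ℝ) ^ 9 := by
      rw [← hx9]
      exact pow_le_pow_left₀ (by linarith) (Nat.le_ceil x) 9
    exact_mod_cast this
  have h1 : s P T ≤ C * ⌈x⌉₊ ^ 19 := by
    refine le_trans ?_ ((h P).trans (hC _ τ e _ he hq1 hq3))
    refine Set.ncard_le_ncard (fun S hS => ⟨hS.1, hS.2.2⟩) ?_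
    exact (P.powerset.finite_toSet).subset fun S hS => Finset.mem_powerset.2 hS.1
  calc (s P T : ℝ) ≤ C * (⌈x⌉₊ : ℝ) ^ 19 := by exact_mod_cast h1
    _ ≤ C * (2 * x) ^ 19 := by gcongr
    _ = _ := by rw [mul_pow, hx19]; ring

end Pool.Agent.Results.MP_36f34d_co.Triangles
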