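import Pool.Agent.MP_36f34d_co.H52.Fin2

/-!
Upper bound `n^(107/51)` for the number of tetrahedra similar to a given one.
-/

namespace Pool.Agent.Results.MP_36f34d_co.UpperBound2

/-- four points not in a plane -/
def IsTetra (S : Finset (EuclideanSpace ℝ (Fin 3))) : Prop :=
  S.card = 4 ∧ ¬ Coplanar ℝ (S : Set (EuclideanSpace ℝ (Fin 3)))

/-- `S` is the image of `T` under an isometry followed by a scaling -/
def Similar (T S : Finset (EuclideanSpace ℝ (Fin 3))) : Prop :=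
  ∃ (φ : EuclideanSpace ℝ (Fin 3) ≃ᵢ EuclideanSpace ℝ (Fin 3)) (l : ℝ), 0 < l ∧
    (S : Set (EuclideanSpace ℝ (Fin 3))) = (fun x => l • φ x) '' T

/-- `s(P,T)`: the number of subsets of `P` that are tetrahedra similar to `T` -/
noncomputable def s (P T : Finset (EuclideanSpace ℝ (Fin 3))) : ℕ :=
  {S : Finset (EuclideanSpace ℝ (Fin 3)) | S ⊆ P ∧ IsTetra S ∧ Similar T S}.ncard

open Pool.Agent.MP_36f34d_co.H52

theorem result : ∃ C : ℝ, ∀ P T : Finset (EuclideanSpace ℝ (Fin 3)), IsTetra T →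
    (s P T : ℝ) ≤ C * (P.card : ℝ) ^ ((107 : ℝ) / 51) := by
  classical
  obtain ⟨C, hC⟩ := TET
  refine ⟨2 * C * 2 ^ 107, fun P T hT => ?_⟩
  rcases P.eq_empty_or_nonempty with rfl | hP
  · have : s ∅ T = 0 := by
      rw [s, Set.ncard_eq_zero (Set.Finite.subset (Set.finite_singleton ∅) fun S hS =>
        Finset.subset_empty.1 hS.1), Set.eq_empty_iff_forall_notMem]
      intro S hS
      have h4 := hS.2.1.1
      rw [Finset.subset_empty.1 hS.1] at h4
      simp at h4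
    rw [this, Nat.cast_zero]
    positivity
  obtain ⟨τ, e, τ', p, η, he, hη, h⟩ := tet_le2 T hT.1 hT.2
  have hn : (1 : ℝ) ≤ P.card := by exact_mod_cast hP.card_pos
  set x : ℝ := (P.card : ℝ) ^ ((1 : ℝ) / 51) with hx
  have hx1 : 1 ≤ x := Real.one_le_rpow hn (by norm_num)
  have hx9 : x ^ 51 = P.card := by
    rw [hx, ← Real.rpow_natCast, ← Real.rpow_mul (by linarith)]
    norm_num
  have hx19 : x ^ 107 = (P.card : ℝ) ^ ((107 : ℝ) / 51) := by
    rw [hx, ← Real.rpow_natCast, ← Real.rpow_mul (by linarith)]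
    norm_num
  have hq1 : 1 ≤ ⌈x⌉₊ := Nat.one_le_iff_ne_zero.2 (Nat.ceil_pos.2 (by linarith)).ne'
  have hq2 : (⌈x⌉₊ : ℝ) ≤ 2 * x := by linarith [Nat.ceil_lt_add_one (show 0 ≤ x by linarith)]
  have hq3 : (P.image WithLp.ofLp).card ≤ ⌈x⌉₊ ^ 51 := by
    refine Finset.card_image_le.trans ?_
    have : (P.card : ℝ) ≤ (⌈x⌉₊ : ℝ) ^ 51 := by
      rw [← hx9]
      exact pow_le_pow_left₀ (by linarith) (Nat.le_ceil x) 51
    exact_mod_cast this
  have h1 : s P T ≤ 2 * (C * ⌈x⌉₊ ^ 107) := by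
    rw [two_mul]
    refine le_trans ?_ ((h P).trans (Nat.add_le_add (hC _ τ e τ' p η _ he hη hq1 hq3)
      (hC _ τ e τ' p (-η) _ he (neg_ne_zero.2 hη) hq1 hq3)))
    refine Set.ncard_le_ncard (fun S hS => ⟨hS.1, hS.2.2⟩) ?_
    exact (P.powerset.finite_toSet).subset fun S hS => Finset.mem_powerset.2 hS.1
  calc (s P T : ℝ) ≤ 2 * (C * (⌈x⌉₊ : ℝ) ^ 107) := by exact_mod_cast h1
    _ ≤ 2 * (C * (2 * x) ^ 107) := by gcongr
    _ = _ := by rw [mul_pow, hx19]; ring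

end Pool.Agent.Results.MP_36f34d_co.UpperBound2
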